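import Pool.Agent.Lib.MP_715eb0_an.SW.Spec
import Pool.Agent.Lib.MP_715eb0_an.SI.FIN

/-!
# FIY: equidistribution along short polynomial progressions about every point (clause (2))
-/

set_option autoImplicit false

open MeasureTheory Finset Polynomial

namespace Pool.Agent.Lib.MP_715eb0_an.SW

open Pool.Agent.Lib.MP_715eb0_an.SI Pool.Agent.Lib.MP_715eb0_an.NC

namespace FIYM

/-- the order of an atom is prime to `6` -/
lemma order_atom {μ : Measure T} (hμ : Erg μ) {z : T} (hz : μ {z} ≠ 0) :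
    (addOrderOf z).Coprime 6 := by
  obtain ⟨x₀, h1, h2⟩ := classify hμ
  have h3 : z ∈ Orb x₀ := by
    rw [h2] at hz
    exact (U_singleton z).mp hz
  rw [order_of_mem_Orb h1 h3]
  exact h1

/-- the order of `y` divides the product of those of `y + n x` and `x` -/
lemma order_sub {x y : T} (n : ℤ) (hx : (addOrderOf x).Coprime 6)
    (hz : (addOrderOf (y + n • x)).Coprime 6) : (addOrderOf y).Coprime 6 := by
  have h1 : addOrderOf y ∣ addOrderOf (y + n • x) * addOrderOf x := by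
    apply addOrderOf_dvd_of_nsmul_eq_zero
    have h2 : (addOrderOf (y + n • x) * addOrderOf x) • (y + n • x) = 0 := by
      rw [mul_comm, mul_nsmul', addOrderOf_nsmul_eq_zero, nsmul_zero]
    have h3 : (addOrderOf (y + n • x) * addOrderOf x) • (n • x) = 0 := by
      rw [← natCast_zsmul, smul_comm, natCast_zsmul, mul_nsmul', addOrderOf_nsmul_eq_zero,
        nsmul_zero, zsmul_zero]
    rw [nsmul_add, h3, add_zero] at h2
    exact h2
  exact Nat.Coprime.coprime_dvd_left h1 (Nat.Coprime.mul_left hz hx)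

end FIYM

open FIYM SI.FINM in
theorem specFIY (hMOY : SpecMOY) (hTRG : SI.SpecTRG) : SpecFIY := by
  intro P f ε η hP hε hη
  obtain ⟨M, τ, hτ, hT⟩ := hTRG f ε hε
  set δ : ℝ := ε * τ ^ 2 / (2 * M + 1) with hδ
  have hδ0 : 0 < δ := by positivity
  have hM : ∀ m : ℤ, ∃ q₀ : ℕ, m ≠ 0 →
      ∀ x y : T, (addOrderOf x).Coprime 6 → q₀ ≤ addOrderOf x → (addOrderOf y).Coprime 6 →
      ∀ H : ℕ, (addOrderOf x : ℝ) ^ η ≤ H →
        ∑ k ∈ range H, ‖∫ t, (fourier m t : ℂ) ∂(U (Orb (y + P.eval (k : ℤ) • x)))‖ ^ 2 ≤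
          δ * H := by
    intro m
    by_cases hm : m = 0
    · exact ⟨0, fun h => absurd hm h⟩
    · obtain ⟨q₀, hq₀⟩ := hMOY P m δ η hP hm hδ0 hη
      exact ⟨q₀, fun _ => hq₀⟩
  choose Q hQ using hM
  refine ⟨(Finset.Icc (-(M : ℤ)) M).sup Q, ?_⟩
  intro x y hx hq H hH
  classical
  by_cases hne : {k : ℕ | k < H ∧ ∃ μ : Measure T, Erg μ ∧ μ {y + P.eval (k : ℤ) • x} ≠ 0 ∧
      ε < |∫ t, f t ∂μ - ∫ t in (0 : ℝ)..1, f ((t : ℝ) : T)|}.Nonempty
  swap
  · rw [Set.not_nonempty_iff_eq_empty.mp hne, Set.ncard_empty]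
    push_cast
    positivity
  have hy : (addOrderOf y).Coprime 6 := by
    obtain ⟨k, hk, μ, hμ, hat, hbig⟩ := hne
    exact order_sub (P.eval (k : ℤ)) hx (order_atom hμ hat)
  set ms : Finset ℤ := (Finset.Icc (-(M : ℤ)) M).filter (fun m => m ≠ 0) with hms
  have hcard : (ms.card : ℝ) ≤ 2 * M + 1 := by
    have h1 : ms.card ≤ (Finset.Icc (-(M : ℤ)) M).card := card_filter_le _ _
    have h2 : (Finset.Icc (-(M : ℤ)) M).card = 2 * M + 1 := by
      rw [Int.card_Icc]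
      omega
    rw [h2] at h1
    exact_mod_cast h1
  set c : ℤ → ℕ → ℝ := fun m k =>
    ‖∫ t, (fourier m t : ℂ) ∂(U (Orb (y + P.eval (k : ℤ) • x)))‖ with hc
  have hmom : ∀ m ∈ ms, ∑ k ∈ range H, c m k ^ 2 ≤ δ * H := by
    intro m hm
    have h1 := mem_filter.mp hm
    exact hQ m h1.2 x y hx ((Finset.le_sup h1.1).trans hq) hy H hH
  have h1 := cheb ms H c τ δ hτ (fun m k => norm_nonneg _) hmom
  have hsub : {k : ℕ | k < H ∧ ∃ μ : Measure T, Erg μ ∧ μ {y + P.eval (k : ℤ) • x} ≠ 0 ∧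
      ε < |∫ t, f t ∂μ - ∫ t in (0 : ℝ)..1, f ((t : ℝ) : T)|} ⊆
      (((range H).filter (fun k => ∃ m ∈ ms, τ < c m k) : Finset ℕ) : Set ℕ) := by
    rintro k ⟨hk, μ, hμ, hat, hbig⟩
    obtain ⟨h2, h3⟩ := eq_U hμ hat
    rw [coe_filter]
    refine ⟨mem_range.mpr hk, ?_⟩
    by_contra hcon
    push Not at hcon
    have h4 := hT μ h3 (by
      intro m hm0 hmM
      have h5 := hcon m (mem_filter.mpr ⟨mem_Icc.mpr (abs_le.mp hmM), hm0⟩)
      rw [h2]
      exact h5)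
    linarith
  have h2 : (Set.ncard {k : ℕ | k < H ∧ ∃ μ : Measure T, Erg μ ∧
      μ {y + P.eval (k : ℤ) • x} ≠ 0 ∧
      ε < |∫ t, f t ∂μ - ∫ t in (0 : ℝ)..1, f ((t : ℝ) : T)|} : ℝ) ≤
      (((range H).filter (fun k => ∃ m ∈ ms, τ < c m k)).card : ℝ) := by
    have h3 := Set.ncard_le_ncard hsub (Finset.finite_toSet _)
    rw [Set.ncard_coe_finset] at h3
    exact_mod_cast h3
  refine h2.trans ?_
  have h3 : (ms.card : ℝ) * (δ * H) ≤ (2 * M + 1) * (δ * H) :=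
    mul_le_mul_of_nonneg_right hcard (by positivity)
  have h4 : (2 * (M : ℝ) + 1) * (δ * H) = ε * H * τ ^ 2 := by
    rw [hδ]
    field_simp
  have h5 := h1.trans (h3.trans h4.le)
  exact le_of_mul_le_mul_right h5 (by positivity)

end Pool.Agent.Lib.MP_715eb0_an.SW
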