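import Pool.Agent.Lib.MP_715eb0_an.SI.Spec

/-!
# MP_715eb0_an: short progressions about EVERY point, in logarithmic time (specifications)

THEOREM. Let `P` be a nonconstant integral polynomial, `f` a continuous real function on `ℝ/ℤ` and
`ε, η > 0`. There is `C` such that for every `x` in `ℝ/ℤ` of order `d ≥ C` prime to `6`, EVERY `y` in
`ℝ/ℤ` (of any order, finite or not) and every `H ≥ d ^ η`:
(1) for every `n ≥ C log d`, for all but `ε H` of the `k < H` the mean of `f` over the `n²` points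
`2^i 3^j (y + P(k) x)`, `i, j < n`, differs from `∫ f` by at most `ε`;
(2) for all but `ε H` of the `k < H` the measure of the question with the atom `y + P(k) x` (if there
is one) integrates `f` up to `ε` like the Lebesgue measure.

(The hand-in `ShortProgressions` has (2) with `d y = 0` only.)

All modules are independent: file `Pool/Agent/Lib/MP_715eb0_an/SW/XXX.lean`, import
`Pool.Agent.Lib.MP_715eb0_an.SW.Spec` (and the proved files `SI/MOM.lean`, `SI/FIN.lean` if you want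
their auxiliary lemmas in the namespaces `SI.MOMM`, `SI.FINM`), namespace
`Pool.Agent.Lib.MP_715eb0_an.SW`, theorem `specXXX (hYYY : SpecYYY) .. : SpecXXX` with the hypotheses
in the order of USES, own lemmas in a namespace `XXXM`.
-/

set_option autoImplicit false

open MeasureTheory Finset Polynomial

namespace Pool.Agent.Lib.MP_715eb0_an.SW

open Pool.Agent.Lib.MP_715eb0_an.SI Pool.Agent.Lib.MP_715eb0_an.NC

/-- The square of times `i, j < n`. -/
def sq (n : ℕ) : Finset (ℕ × ℕ) := range n ×ˢ range n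

/-- CNW (150 lines). USES `NC.SpecCNT`. The times in a square at which `m x` is near a point.
PROOF. Let `K, q₀` be those of CNT for `ε / 4`, `η / 2`. Let `d` be the order of `x`, `x' = m • x`,
`d'` its order: `d' ∣ d` is prime to `6` and `d ≤ |m| d'`, so `d' ≥ q₀` for large `d`. For large `d`
`A / H ≤ A d^(-η) ≤ d^(-η/2) ≤ d'^(-η/2)`. (For these facts copy the proof of `specMOM` in
`SI/MOM.lean`.) Put `L = Nat.log 2 d' + 1` and `B = K * L`. For a corner `(u B, v B)` the point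
`V (u B, v B) • x'` has order `d'` (`Nat.Coprime.addOrderOf_nsmul`, `coprime_two_three`), so it is the
class of `a / d'` with an integer `a` prime to `d'`, and `dist (V p • class (a / d')) c ≤ ρ` implies
`|V p * (a / d') - y - k| ≤ ρ` for some integer `k`, `y` a representative of `c` (see `NC/ARC.lean`).
By CNT at most `(ε/4) B²` of the `p` in `[0, B)²` have `dist (V ((u B, v B) + p) • x') c ≤ A / H`.
The square `[0, n)²` is covered by `(n / B + 1)²` translates (write `i = u B + i'`, `i' < B`,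
`u = i / B ≤ n / B`), so the number is at most `(n / B + 1)² (ε/4) B² ≤ (n + B)² ε / 4 ≤ ε n²`, since
`B ≤ n`: `B ≤ K (log d / log 2 + 1) ≤ 4 K log d ≤ C log d ≤ n` for `C ≥ 4 K`, `d ≥ 3`. -/
def SpecCNW : Prop :=
  ∀ (m : ℤ) (A ε η : ℝ), m ≠ 0 → 0 < A → 0 < ε → 0 < η → ∃ C : ℕ, ∀ x : T,
    (addOrderOf x).Coprime 6 → C ≤ addOrderOf x → ∀ H : ℕ, (addOrderOf x : ℝ) ^ η ≤ H →
      ∀ n : ℕ, C * Real.log (addOrderOf x) ≤ n → ∀ c : T,
        ((((sq n).filter (fun p => dist (V p • (m • x)) c ≤ A / H)).card : ℕ) : ℝ) ≤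
          ε * (n : ℝ) ^ 2

/-- MOW (170 lines). USES CNW, `SI.SpecCOV`, `SI.SpecEXP` (in this order). The second moment.
PROOF. `fourier m (V p • (y + P(k) • x)) = fourier m (V p • y) * fourier (P k) (V p • (m • x))`
(`SI.MOMM.char_eq`). EXP with `W = sq n`, `θ_p = V p • (m • x)`, `a_p = fourier m (V p • y)`: the left
hand side is `≤ Σ_{p, p'} |E(θ_p - θ_p')|`, `E(θ) = Σ_{k < H} fourier (P k) θ`. Let `Y, C₁` be those
of COV for `κ = δ / 2`. Fix `p'`. The `p` with `|E(θ_p - θ_p')| < κ H` contribute at most `n² κ H`; for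
the others `θ_p` is within `C₁ / H` of `θ_p' + y'` with `y'` in `Y`, and by CNW (`A = C₁`,
`ε' = δ / (2 |Y| + 2)`) there are at most `|Y| ε' n²` of them, contributing `≤ |Y| ε' n² H`. Total
`≤ n² (n² κ H + |Y| ε' n² H) ≤ δ n⁴ H`. (Copy `row` and the end of `specMOM` in `SI/MOM.lean`.) -/
def SpecMOW : Prop :=
  ∀ (P : ℤ[X]) (m : ℤ) (δ η : ℝ), 1 ≤ P.natDegree → m ≠ 0 → 0 < δ → 0 < η → ∃ C : ℕ,
    ∀ x y : T, (addOrderOf x).Coprime 6 → C ≤ addOrderOf x →
      ∀ H : ℕ, (addOrderOf x : ℝ) ^ η ≤ H → ∀ n : ℕ, C * Real.log (addOrderOf x) ≤ n →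
        ∑ k ∈ range H, ‖∑ p ∈ sq n, (fourier m (V p • (y + P.eval (k : ℤ) • x)) : ℂ)‖ ^ 2 ≤
          δ * (n : ℝ) ^ 4 * H

/-- EMP (80 lines). USES `SI.SpecTRG`. Finitely many Fourier coefficients, for the mean over a square
of times.
PROOF. TRG for the probability measure `μ = (n²)⁻¹ Σ_{p ∈ sq n} δ_{V p • z}` (`Measure.dirac`,
`Measure.sum` or `∑ p ∈ sq n, Measure.dirac (V p • z)` with `integral_finset_sum_measure`,
`integral_dirac`, `integral_smul_measure`). -/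
def SpecEMP : Prop :=
  ∀ (f : C(T, ℝ)) (ε : ℝ), 0 < ε → ∃ (M : ℕ) (τ : ℝ), 0 < τ ∧ ∀ (n : ℕ) (z : T), 1 ≤ n →
    (∀ m : ℤ, m ≠ 0 → |m| ≤ M →
      ‖∑ p ∈ sq n, (fourier m (V p • z) : ℂ)‖ ≤ τ * (n : ℝ) ^ 2) →
    |(∑ p ∈ sq n, f (V p • z)) / (n : ℝ) ^ 2 - ∫ t in (0 : ℝ)..1, f ((t : ℝ) : T)| ≤ ε

/-- FIW (110 lines). USES MOW, EMP. Clause (1).
PROOF. As `SI/FIN.lean` (use `SI.FINM.cheb` with
`c m k = ‖∑ p ∈ sq n, fourier m (V p • (y + P(k) • x))‖ / n²`): `M, τ` from EMP for `f, ε`; `C` the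
maximum of `1` and of those of MOW for the `m` with `0 < |m| ≤ M` and `δ = ε τ² / (2 M + 1)`. If `k`
is in the set there is `m`, `0 < |m| ≤ M`, with `c m k > τ`. `1 ≤ n` because `C ≥ 1` and
`log d > 0` (take `C ≥ 3`). -/
def SpecFIW : Prop :=
  ∀ (P : ℤ[X]) (f : C(T, ℝ)) (ε η : ℝ), 1 ≤ P.natDegree → 0 < ε → 0 < η → ∃ C : ℕ,
    ∀ x y : T, (addOrderOf x).Coprime 6 → C ≤ addOrderOf x →
      ∀ H : ℕ, (addOrderOf x : ℝ) ^ η ≤ H → ∀ n : ℕ, C * Real.log (addOrderOf x) ≤ n →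
        (Set.ncard {k : ℕ | k < H ∧
          ε < |(∑ i ∈ range n, ∑ j ∈ range n, f ((2 ^ i * 3 ^ j) • (y + P.eval (k : ℤ) • x))) /
            (n : ℝ) ^ 2 - ∫ t in (0 : ℝ)..1, f ((t : ℝ) : T)|} : ℝ) ≤ ε * H

/-- MOY (130 lines). USES `NC.SpecARC`, `SI.SpecCOV`, `SI.SpecEXP`, `SI.SpecAVG` (in this order).
The second moment over orbits; `SI.SpecMOM` with a `y` of arbitrary order prime to `6`.
PROOF. Copy `specMOM` of `SI/MOM.lean`, with `Q = addOrderOf x * addOrderOf y` in place of `q` in the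
calls of the lemmas `row` and `square` (they are stated there for every `q` prime to `6` with
`q • x = 0`, `q • y = 0`). -/
def SpecMOY : Prop :=
  ∀ (P : ℤ[X]) (m : ℤ) (δ η : ℝ), 1 ≤ P.natDegree → m ≠ 0 → 0 < δ → 0 < η → ∃ q₀ : ℕ,
    ∀ x y : T, (addOrderOf x).Coprime 6 → q₀ ≤ addOrderOf x → (addOrderOf y).Coprime 6 →
      ∀ H : ℕ, (addOrderOf x : ℝ) ^ η ≤ H →
        ∑ k ∈ range H, ‖∫ t, (fourier m t : ℂ) ∂(U (Orb (y + P.eval (k : ℤ) • x)))‖ ^ 2 ≤ δ * H

/-- FIY (120 lines). USES MOY, `SI.SpecTRG`. Clause (2).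
PROOF. If some `k` is in the set, `y + P(k) • x` is an atom of a measure of the question, so its order
is prime to `6` (`SI.FINM.eq_U`, `classify`, `order_of_mem_Orb`), and so is the order of
`y = (y + P(k) • x) - P(k) • x` (it divides the product of two numbers prime to `6`). Otherwise the
set is empty. Then as in `SI/FIN.lean`. -/
def SpecFIY : Prop :=
  ∀ (P : ℤ[X]) (f : C(T, ℝ)) (ε η : ℝ), 1 ≤ P.natDegree → 0 < ε → 0 < η → ∃ q₀ : ℕ,
    ∀ x y : T, (addOrderOf x).Coprime 6 → q₀ ≤ addOrderOf x →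
      ∀ H : ℕ, (addOrderOf x : ℝ) ^ η ≤ H →
        (Set.ncard {k : ℕ | k < H ∧ ∃ μ : Measure T, Erg μ ∧ μ {y + P.eval (k : ℤ) • x} ≠ 0 ∧
          ε < |∫ t, f t ∂μ - ∫ t in (0 : ℝ)..1, f ((t : ℝ) : T)|} : ℝ) ≤ ε * H

end Pool.Agent.Lib.MP_715eb0_an.SW
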