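import Pool.Agent.Lib.MP_715eb0_an.SW.Spec

/-!
# Module EMP: finitely many Fourier coefficients for the mean over a square of times
-/

set_option autoImplicit false

open MeasureTheory Finset Polynomial
open scoped ENNReal

namespace Pool.Agent.Lib.MP_715eb0_an.SW

open Pool.Agent.Lib.MP_715eb0_an.SI Pool.Agent.Lib.MP_715eb0_an.NC

namespace EMPM

/-- the empirical measure -/
noncomputable def Em {ι : Type} (S : Finset ι) (z : ι → T) : Measure T :=
  (S.card : ℝ≥0∞)⁻¹ • ∑ p ∈ S, Measure.dirac (z p)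

lemma Em_prob {ι : Type} {S : Finset ι} (hS : S.Nonempty) (z : ι → T) :
    IsProbabilityMeasure (Em S z) := by
  constructor
  have h1 : (∑ p ∈ S, Measure.dirac (z p) : Measure T) Set.univ = (S.card : ℝ≥0∞) := by
    rw [Measure.coe_finsetSum, Finset.sum_apply]
    simp
  rw [Em, Measure.smul_apply, h1, smul_eq_mul]
  refine ENNReal.inv_mul_cancel ?_ (ENNReal.natCast_ne_top _)
  exact_mod_cast (Finset.card_pos.2 hS).ne'

lemma integral_Em {ι : Type} (S : Finset ι) (z : ι → T) {E : Type} [NormedAddCommGroup E]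
    [NormedSpace ℝ E] [CompleteSpace E] (g : T → E) :
    ∫ x, g x ∂(Em S z) = ((S.card : ℝ)⁻¹) • ∑ p ∈ S, g (z p) := by
  rw [Em, integral_smul_measure, integral_finsetSum_measure]
  · simp only [integral_dirac]
    congr 1
    simp
  · intro p _
    exact integrable_dirac (by simp)

end EMPM

open EMPM in
/-- **EMP** -/
theorem specEMP (hTRG : SpecTRG) : SpecEMP := by
  intro f ε hε
  obtain ⟨M, τ, hτ, h⟩ := hTRG f ε hε
  refine ⟨M, τ, hτ, fun n z hn hm => ?_⟩
  have hcard : (((sq n).card : ℕ) : ℝ) = (n : ℝ) ^ 2 := by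
    rw [sq, card_product, card_range]
    push_cast
    ring
  have hn0 : (0 : ℝ) < (n : ℝ) ^ 2 := by
    have : (0 : ℝ) < (n : ℝ) := by exact_mod_cast hn
    positivity
  have hne : (sq n).Nonempty := by
    rw [← Finset.card_pos]
    have h1 : (0 : ℝ) < (((sq n).card : ℕ) : ℝ) := by rw [hcard]; exact hn0
    exact_mod_cast h1
  have h2 := h (Em (sq n) fun p => V p • z) (Em_prob hne _) ?_
  · rw [integral_Em, hcard, smul_eq_mul, inv_mul_eq_div] at h2
    exact h2
  · intro m hm0 hmM
    rw [integral_Em, hcard, norm_smul, norm_inv, Real.norm_of_nonneg hn0.le, inv_mul_le_iff₀ hn0,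
      mul_comm]
    exact hm m hm0 hmM

end Pool.Agent.Lib.MP_715eb0_an.SW
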