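import Pool.Agent.Lib.MP_715eb0_an.SW.Spec

/-!
# Module CNW: the times in a square at which `m x` is near a point
-/

set_option autoImplicit false

open MeasureTheory Finset Polynomial

namespace Pool.Agent.Lib.MP_715eb0_an.SW

open Pool.Agent.Lib.MP_715eb0_an.SI Pool.Agent.Lib.MP_715eb0_an.NC

namespace CNWM

lemma cover (n B : ℕ) (hB : 0 < B) (good : ℕ × ℕ → Prop) [DecidablePred good] (t : ℝ)
    (h : ∀ u v : ℕ, ((((range B ×ˢ range B).filter
      fun w => good (u * B + w.1, v * B + w.2)).card : ℕ) : ℝ) ≤ t) :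
    ((((range n ×ˢ range n).filter good).card : ℕ) : ℝ) ≤ ((n / B + 1 : ℕ) : ℝ) ^ 2 * t := by
  set S := (range n ×ˢ range n).filter good with hS
  set Q := range (n / B + 1) ×ˢ range (n / B + 1) with hQ
  have hmaps : ∀ p ∈ S, (p.1 / B, p.2 / B) ∈ Q := by
    intro p hp
    rw [hS, mem_filter, mem_product, mem_range, mem_range] at hp
    rw [hQ, mem_product, mem_range, mem_range]
    exact ⟨Nat.lt_succ_of_le (Nat.div_le_div_right hp.1.1.le),
      Nat.lt_succ_of_le (Nat.div_le_div_right hp.1.2.le)⟩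
  have hsum : S.card = ∑ b ∈ Q, (S.filter fun p => (p.1 / B, p.2 / B) = b).card :=
    card_eq_sum_card_fiberwise hmaps
  have hfib : ∀ b ∈ Q, (((S.filter fun p => (p.1 / B, p.2 / B) = b).card : ℕ) : ℝ) ≤ t := by
    rintro ⟨u, v⟩ _
    refine le_trans ?_ (h u v)
    have h1 : (S.filter fun p => (p.1 / B, p.2 / B) = (u, v)).card ≤
        ((range B ×ˢ range B).filter fun w => good (u * B + w.1, v * B + w.2)).card := by
      refine card_le_card_of_injOn (fun p => (p.1 % B, p.2 % B)) ?_ ?_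
      · intro p hp
        have hp' := (mem_filter.mp (mem_coe.mp hp))
        obtain ⟨hp1, hp2⟩ := hp'
        rw [hS, mem_filter] at hp1
        rw [Prod.mk.injEq] at hp2
        rw [mem_coe, mem_filter, mem_product, mem_range, mem_range]
        refine ⟨⟨Nat.mod_lt _ hB, Nat.mod_lt _ hB⟩, ?_⟩
        have e1 : u * B + p.1 % B = p.1 := by rw [← hp2.1]; exact Nat.div_add_mod' _ _
        have e2 : v * B + p.2 % B = p.2 := by rw [← hp2.2]; exact Nat.div_add_mod' _ _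
        show good (u * B + p.1 % B, v * B + p.2 % B)
        rw [e1, e2]
        exact hp1.2
      · intro p hp p' hp' he
        have hq := (mem_filter.mp (mem_coe.mp hp)).2
        have hq' := (mem_filter.mp (mem_coe.mp hp')).2
        rw [Prod.mk.injEq] at hq hq'
        have he' : (p.1 % B, p.2 % B) = (p'.1 % B, p'.2 % B) := he
        rw [Prod.mk.injEq] at he'
        apply Prod.ext
        · rw [← Nat.div_add_mod' p.1 B, ← Nat.div_add_mod' p'.1 B, hq.1, hq'.1, he'.1]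
        · rw [← Nat.div_add_mod' p.2 B, ← Nat.div_add_mod' p'.2 B, hq.2, hq'.2, he'.2]
    exact_mod_cast h1
  have hs2 : (S.card : ℝ) = ∑ b ∈ Q, (((S.filter fun p => (p.1 / B, p.2 / B) = b).card : ℕ) : ℝ) := by
    exact_mod_cast hsum
  rw [hs2]
  refine (sum_le_sum hfib).trans (le_of_eq ?_)
  rw [sum_const, nsmul_eq_mul, hQ, card_product, card_range]
  push_cast
  ring

lemma near {z : T} {q : ℕ} (hq0 : 0 < q) (hz : addOrderOf z = q) :
    ∃ a : ℤ, IsCoprime a (q : ℤ) ∧ ∀ (p : ℕ × ℕ) (y' ρ : ℝ),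
      dist (V p • z) (y' : T) ≤ ρ → ∃ k : ℤ, |(V p : ℝ) * (a / q) - y' - k| ≤ ρ := by
  obtain ⟨m, _, hm, hmz⟩ := (AddCircle.addOrderOf_eq_pos_iff hq0).1 hz
  refine ⟨(m : ℤ), Nat.isCoprime_iff_coprime.2 hm, ?_⟩
  intro p y' ρ h
  have e : V p • z - (y' : T) = (((V p : ℝ) * (((m : ℤ) : ℝ) / q) - y' : ℝ) : T) := by
    rw [← hmz, ← AddCircle.coe_nsmul, ← AddCircle.coe_sub]
    congr 2
    rw [nsmul_eq_mul]
    push_cast
    ring
  rw [dist_eq_norm, e, AddCircle.norm_eq] at h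
  refine ⟨round ((1 : ℝ)⁻¹ * ((V p : ℝ) * (((m : ℤ) : ℝ) / q) - y')), ?_⟩
  rw [mul_one] at h
  exact h

/-- the count in one block, for a point of order `d` -/
lemma block (K d : ℕ) (ε η : ℝ) (hcop : d.Coprime 6)
    (hCNT : ∀ a : ℤ, IsCoprime a (d : ℤ) → ∀ y : ℝ,
      ((Set.ncard {p : ℕ × ℕ | p.1 < K * (Nat.log 2 d + 1) ∧ p.2 < K * (Nat.log 2 d + 1) ∧
        ∃ k : ℤ, |(V p : ℝ) * (a / d) - y - k| ≤ (d : ℝ) ^ (-η)} : ℕ) : ℝ) ≤
        ε * (K * (Nat.log 2 d + 1)) ^ 2)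
    (z : T) (hz : addOrderOf z = d) (c : T) (ρ : ℝ) (hρ : ρ ≤ (d : ℝ) ^ (-η)) :
    ((((range (K * (Nat.log 2 d + 1)) ×ˢ range (K * (Nat.log 2 d + 1))).filter
      fun w => dist (V w • z) c ≤ ρ).card : ℕ) : ℝ) ≤ ε * (K * (Nat.log 2 d + 1)) ^ 2 := by
  obtain ⟨y', rfl⟩ := QuotientAddGroup.mk_surjective c
  obtain ⟨a, ha, hnear⟩ := near (z := z) (pos_of_coprime hcop) hz
  refine le_trans ?_ (hCNT a ha y')
  have hsub : (((range (K * (Nat.log 2 d + 1)) ×ˢ range (K * (Nat.log 2 d + 1))).filter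
      fun w => dist (V w • z) (y' : T) ≤ ρ : Finset (ℕ × ℕ)) : Set (ℕ × ℕ)) ⊆
      {p : ℕ × ℕ | p.1 < K * (Nat.log 2 d + 1) ∧ p.2 < K * (Nat.log 2 d + 1) ∧
      ∃ k : ℤ, |(V p : ℝ) * (a / d) - y' - k| ≤ (d : ℝ) ^ (-η)} := by
    intro p hp
    rw [mem_coe, mem_filter, mem_product, mem_range, mem_range] at hp
    obtain ⟨k, hk⟩ := hnear p y' ρ hp.2
    exact ⟨hp.1.1, hp.1.2, k, hk.trans hρ⟩
  have hfin : ({p : ℕ × ℕ | p.1 < K * (Nat.log 2 d + 1) ∧ p.2 < K * (Nat.log 2 d + 1) ∧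
      ∃ k : ℤ, |(V p : ℝ) * (a / d) - y' - k| ≤ (d : ℝ) ^ (-η)}).Finite := by
    refine ((range (K * (Nat.log 2 d + 1)) ×ˢ range (K * (Nat.log 2 d + 1))).finite_toSet).subset ?_
    intro p hp
    rw [mem_coe, mem_product, mem_range, mem_range]
    exact ⟨hp.1, hp.2.1⟩
  have h2 := Set.ncard_le_ncard hsub hfin
  rw [Set.ncard_coe_finset] at h2
  exact_mod_cast h2

lemma V_add (B u v : ℕ) (w : ℕ × ℕ) : V (u * B + w.1, v * B + w.2) = V w * V (u * B, v * B) := by
  unfold V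
  rw [pow_add, pow_add]
  ring

end CNWM

open CNWM in
theorem specCNW (hCNT : NC.SpecCNT) : SpecCNW := by
  intro m A ε η hm hA hε hη
  obtain ⟨K, q₀, hK, hq₀⟩ := hCNT (ε / 4) (η / 2) (by linarith) (by linarith)
  refine ⟨max (max (m.natAbs * q₀) (⌈A ^ (2 / η)⌉₊ + 1)) (max (4 * K) 3), ?_⟩
  intro x hx hq H hH n hn c
  set q := addOrderOf x with hqdef
  have hq0 : 0 < q := pos_of_coprime hx
  have hqR : (0 : ℝ) < q := by exact_mod_cast hq0
  have hHpos : (0 : ℝ) < H := lt_of_lt_of_le (Real.rpow_pos_of_pos hqR η) hH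
  have hqx : q • x = 0 := addOrderOf_nsmul_eq_zero x
  have hqx' : q • (m • x) = 0 := by rw [smul_comm, hqx, smul_zero]
  set x' := m • x with hx'
  set d := addOrderOf x' with hd
  have hdq : d ∣ q := addOrderOf_dvd_of_nsmul_eq_zero hqx'
  have hdle : d ≤ q := Nat.le_of_dvd hq0 hdq
  have hdcop : d.Coprime 6 := Nat.Coprime.coprime_dvd_left hdq hx
  have hd0 : 0 < d := pos_of_coprime hdcop
  have hdR : (0 : ℝ) < d := by exact_mod_cast hd0
  have hdleR : (d : ℝ) ≤ q := by exact_mod_cast hdle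
  have hmpos : 0 < m.natAbs := Int.natAbs_pos.mpr hm
  have hqd : q ≤ d * m.natAbs := by
    have h0 : (d * m.natAbs) • x = 0 := by
      have h1 : d • x' = 0 := addOrderOf_nsmul_eq_zero x'
      have h2 : ((d : ℤ) * m) • x = 0 := by
        rw [mul_smul, natCast_zsmul]
        exact h1
      rcases Int.natAbs_eq m with h | h
      · have h3 : ((d * m.natAbs : ℕ) : ℤ) • x = 0 := by
          push_cast
          rw [← Int.natCast_natAbs, ← h]
          exact h2
        rw [natCast_zsmul] at h3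
        exact h3
      · have h3 : ((d * m.natAbs : ℕ) : ℤ) • x = 0 := by
          have h4 : ((d * m.natAbs : ℕ) : ℤ) = -((d : ℤ) * m) := by
            rw [Nat.cast_mul]
            have : (m.natAbs : ℤ) = -m := by rw [h]; simp
            rw [this]; ring
          rw [h4, neg_smul, h2, neg_zero]
        rw [natCast_zsmul] at h3
        exact h3
    exact Nat.le_of_dvd (Nat.mul_pos hd0 hmpos) (addOrderOf_dvd_of_nsmul_eq_zero h0)
  have hq₀d : q₀ ≤ d := by
    have h1 : m.natAbs * q₀ ≤ m.natAbs * d := by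
      calc m.natAbs * q₀ ≤ q := (le_max_left _ _).trans ((le_max_left _ _).trans hq)
        _ ≤ d * m.natAbs := hqd
        _ = m.natAbs * d := mul_comm _ _
    exact Nat.le_of_mul_le_mul_left h1 hmpos
  have hrad : A / H ≤ (d : ℝ) ^ (-(η / 2)) := by
    have hqC : A ^ (2 / η) ≤ q := by
      have h1 : ⌈A ^ (2 / η)⌉₊ + 1 ≤ q := (le_max_right _ _).trans ((le_max_left _ _).trans hq)
      have h2 : A ^ (2 / η) ≤ (⌈A ^ (2 / η)⌉₊ : ℝ) := Nat.le_ceil _
      have h3 : ((⌈A ^ (2 / η)⌉₊ + 1 : ℕ) : ℝ) ≤ q := by exact_mod_cast h1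
      push_cast at h3
      linarith
    have hCq : A ≤ (q : ℝ) ^ (η / 2) := by
      have h1 : (A ^ (2 / η)) ^ (η / 2) ≤ (q : ℝ) ^ (η / 2) :=
        Real.rpow_le_rpow (Real.rpow_nonneg hA.le _) hqC (by linarith)
      rw [← Real.rpow_mul hA.le] at h1
      have h2 : 2 / η * (η / 2) = 1 := by field_simp
      rw [h2, Real.rpow_one] at h1
      exact h1
    have h3 : A / H ≤ (q : ℝ) ^ (-(η / 2)) := by
      rw [div_le_iff₀ hHpos]
      calc A ≤ (q : ℝ) ^ (η / 2) := hCq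
        _ = (q : ℝ) ^ (-(η / 2)) * (q : ℝ) ^ η := by
            rw [← Real.rpow_add hqR]
            congr 1
            ring
        _ ≤ (q : ℝ) ^ (-(η / 2)) * H :=
            mul_le_mul_of_nonneg_left hH (Real.rpow_nonneg hqR.le _)
    refine h3.trans ?_
    exact Real.rpow_le_rpow_of_nonpos hdR hdleR (by linarith)
  set B := K * (Nat.log 2 d + 1) with hBd
  have hB0 : 0 < B := Nat.mul_pos hK (Nat.succ_pos _)
  have hBn : (B : ℝ) ≤ n := by
    have h1 : (Nat.log 2 d : ℝ) * Real.log 2 ≤ Real.log d := by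
      have h2 : 2 ^ (Nat.log 2 d) ≤ d := Nat.pow_log_le_self 2 hd0.ne'
      have h3 : ((2 : ℝ) ^ (Nat.log 2 d)) ≤ d := by exact_mod_cast h2
      have h4 := Real.log_le_log (by positivity) h3
      rwa [Real.log_pow] at h4
    have h2 : Real.log d ≤ Real.log q := Real.log_le_log hdR hdleR
    have h3 : (0.69 : ℝ) < Real.log 2 := by
      have := Real.log_two_gt_d9
      linarith
    have hq3 : (3 : ℝ) ≤ q := by
      have h4 : 3 ≤ q := (le_max_right _ _).trans ((le_max_right _ _).trans hq)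
      exact_mod_cast h4
    have h4 : 1 < Real.log q := by
      rw [Real.lt_log_iff_exp_lt hqR]
      have := Real.exp_one_lt_d9
      linarith
    have h5 : (Nat.log 2 d : ℝ) * 0.69 ≤ Real.log q := by
      have h6 : (Nat.log 2 d : ℝ) * 0.69 ≤ (Nat.log 2 d : ℝ) * Real.log 2 :=
        mul_le_mul_of_nonneg_left h3.le (Nat.cast_nonneg _)
      linarith
    have h6 : (Nat.log 2 d : ℝ) + 1 ≤ 4 * Real.log q := by linarith
    have h7 : (B : ℝ) ≤ (4 * K : ℝ) * Real.log q := by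
      rw [hBd]
      push_cast
      calc (K : ℝ) * ((Nat.log 2 d : ℝ) + 1) ≤ (K : ℝ) * (4 * Real.log q) :=
            mul_le_mul_of_nonneg_left h6 (Nat.cast_nonneg _)
        _ = (4 * K : ℝ) * Real.log q := by ring
    have h8 : ((4 * K : ℕ) : ℝ) ≤
        ((max (max (m.natAbs * q₀) (⌈A ^ (2 / η)⌉₊ + 1)) (max (4 * K) 3) : ℕ) : ℝ) := by
      exact_mod_cast (le_max_left _ _).trans (le_max_right _ _)
    have h9 : ((4 * K : ℕ) : ℝ) * Real.log q ≤ n :=
      (mul_le_mul_of_nonneg_right h8 (by linarith)).trans hn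
    push_cast at h9
    linarith
  have hblock : ∀ u v : ℕ, ((((range B ×ˢ range B).filter
      fun w => dist (V (u * B + w.1, v * B + w.2) • x') c ≤ A / H).card : ℕ) : ℝ) ≤
        ε / 4 * (B : ℝ) ^ 2 := by
    intro u v
    have hz : addOrderOf (V (u * B, v * B) • x') = d :=
      Nat.Coprime.addOrderOf_nsmul (coprime_two_three hdcop (u * B) (v * B)).symm
    have h1 := block K d (ε / 4) (η / 2) hdcop (hq₀ d hq₀d hdcop) (V (u * B, v * B) • x') hz c
      (A / H) hrad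
    have h2 : ∀ w : ℕ × ℕ, V (u * B + w.1, v * B + w.2) • x' = V w • (V (u * B, v * B) • x') := by
      intro w
      rw [V_add, mul_smul]
    simp only [h2]
    refine h1.trans (le_of_eq ?_)
    rw [hBd]
    push_cast
    ring
  have hmain := cover n B hB0 (fun p => dist (V p • x') c ≤ A / H) (ε / 4 * (B : ℝ) ^ 2) hblock
  have hfin : ((n / B + 1 : ℕ) : ℝ) ^ 2 * (ε / 4 * (B : ℝ) ^ 2) ≤ ε * (n : ℝ) ^ 2 := by
    have h1 : ((n / B + 1 : ℕ) : ℝ) * B ≤ 2 * n := by
      have h2 : (n / B + 1) * B ≤ n + B := by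
        rw [add_mul, one_mul]
        exact Nat.add_le_add_right (Nat.div_mul_le_self n B) B
      have h3 : ((n / B + 1 : ℕ) : ℝ) * B ≤ n + B := by exact_mod_cast h2
      linarith
    have h2 : (((n / B + 1 : ℕ) : ℝ) * B) ^ 2 ≤ (2 * (n : ℝ)) ^ 2 :=
      pow_le_pow_left₀ (by positivity) h1 2
    calc ((n / B + 1 : ℕ) : ℝ) ^ 2 * (ε / 4 * (B : ℝ) ^ 2)
        = ε / 4 * (((n / B + 1 : ℕ) : ℝ) * B) ^ 2 := by ring
      _ ≤ ε / 4 * (2 * (n : ℝ)) ^ 2 := mul_le_mul_of_nonneg_left h2 (by linarith)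
      _ = ε * (n : ℝ) ^ 2 := by ring
  exact hmain.trans hfin

end Pool.Agent.Lib.MP_715eb0_an.SW
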