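import Pool.Agent.Lib.MP_715eb0_an.SW.Spec
import Pool.Agent.Lib.MP_715eb0_an.SI.FIN

/-!
# FIW: equidistribution along short polynomial progressions in logarithmic time
-/

set_option autoImplicit false

open MeasureTheory Finset Polynomial

namespace Pool.Agent.Lib.MP_715eb0_an.SW

open Pool.Agent.Lib.MP_715eb0_an.SI Pool.Agent.Lib.MP_715eb0_an.NC

theorem specFIW (hMOW : SpecMOW) (hEMP : SpecEMP) : SpecFIW := by
  intro P f ε η hP hε hη
  obtain ⟨M, τ, hτ, hT⟩ := hEMP f ε hε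
  obtain ⟨δ, hδ⟩ : ∃ δ : ℝ, δ = ε * τ ^ 2 / (2 * M + 1) := ⟨_, rfl⟩
  have hδ0 : 0 < δ := by rw [hδ]; positivity
  have hM : ∀ m : ℤ, ∃ C : ℕ, m ≠ 0 →
      ∀ x y : T, (addOrderOf x).Coprime 6 → C ≤ addOrderOf x →
      ∀ H : ℕ, (addOrderOf x : ℝ) ^ η ≤ H → ∀ n : ℕ, C * Real.log (addOrderOf x) ≤ n →
        ∑ k ∈ range H, ‖∑ p ∈ sq n, (fourier m (V p • (y + P.eval (k : ℤ) • x)) : ℂ)‖ ^ 2 ≤
          δ * (n : ℝ) ^ 4 * H := by
    intro m
    by_cases hm : m = 0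
    · exact ⟨0, fun h => absurd hm h⟩
    · obtain ⟨q₀, hq₀⟩ := hMOW P m δ η hP hm hδ0 hη
      exact ⟨q₀, fun _ => hq₀⟩
  choose Q hQ using hM
  refine ⟨max 3 ((Finset.Icc (-(M : ℤ)) M).sup Q), ?_⟩
  intro x y hx hq H hH n hn
  classical
  have hd3 : 3 ≤ addOrderOf x := (le_max_left _ _).trans hq
  have hlog : 0 < Real.log (addOrderOf x) :=
    Real.log_pos (by exact_mod_cast (by omega : 1 < addOrderOf x))
  have hn1 : 1 ≤ n := by
    have h3 : (3 : ℝ) ≤ ((max 3 ((Finset.Icc (-(M : ℤ)) M).sup Q) : ℕ) : ℝ) := by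
      exact_mod_cast le_max_left _ _
    have h4 : 0 < (n : ℝ) := by
      refine lt_of_lt_of_le ?_ hn
      exact mul_pos (by linarith) hlog
    exact_mod_cast h4
  have hn0 : (0 : ℝ) < n := by exact_mod_cast hn1
  obtain ⟨ms, hms⟩ : ∃ ms : Finset ℤ, ms = (Finset.Icc (-(M : ℤ)) M).filter (fun m => m ≠ 0) :=
    ⟨_, rfl⟩
  have hcard : (ms.card : ℝ) ≤ 2 * M + 1 := by
    have h1 : ms.card ≤ (Finset.Icc (-(M : ℤ)) M).card := by rw [hms]; exact card_filter_le _ _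
    have h2 : (Finset.Icc (-(M : ℤ)) M).card = 2 * M + 1 := by
      rw [Int.card_Icc]
      omega
    rw [h2] at h1
    exact_mod_cast h1
  obtain ⟨c, hc⟩ : ∃ c : ℤ → ℕ → ℝ, ∀ m k, c m k =
    ‖∑ p ∈ sq n, (fourier m (V p • (y + P.eval (k : ℤ) • x)) : ℂ)‖ / (n : ℝ) ^ 2 := ⟨_, fun _ _ => rfl⟩
  have hc0 : ∀ m k, 0 ≤ c m k := fun m k => by rw [hc]; positivity
  have hmom : ∀ m ∈ ms, ∑ k ∈ range H, c m k ^ 2 ≤ δ * H := by
    intro m hm
    rw [hms] at hm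
    have h1 := mem_filter.mp hm
    have hle : Q m ≤ max 3 ((Finset.Icc (-(M : ℤ)) M).sup Q) :=
      (Finset.le_sup h1.1).trans (le_max_right _ _)
    have hle' : ((Q m : ℕ) : ℝ) ≤ ((max 3 ((Finset.Icc (-(M : ℤ)) M).sup Q) : ℕ) : ℝ) := by
      exact_mod_cast hle
    have h2 := hQ m h1.2 x y hx (hle.trans hq) H hH n
      ((mul_le_mul_of_nonneg_right hle' hlog.le).trans hn)
    have h3 : ∑ k ∈ range H, c m k ^ 2 = (∑ k ∈ range H,
        ‖∑ p ∈ sq n, (fourier m (V p • (y + P.eval (k : ℤ) • x)) : ℂ)‖ ^ 2) / (n : ℝ) ^ 4 := by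
      rw [Finset.sum_div]
      refine Finset.sum_congr rfl fun k _ => ?_
      rw [hc, div_pow]
      congr 1
      ring
    rw [h3, div_le_iff₀ (by positivity)]
    linarith
  have h1 := FINM.cheb ms H c τ δ hτ hc0 hmom
  have hsub : {k : ℕ | k < H ∧
      ε < |(∑ i ∈ range n, ∑ j ∈ range n, f ((2 ^ i * 3 ^ j) • (y + P.eval (k : ℤ) • x))) /
            (n : ℝ) ^ 2 - ∫ t in (0 : ℝ)..1, f ((t : ℝ) : T)|} ⊆
      (((range H).filter (fun k => ∃ m ∈ ms, τ < c m k) : Finset ℕ) : Set ℕ) := by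
    rintro k ⟨hk, hbig⟩
    rw [coe_filter]
    refine ⟨mem_range.mpr hk, ?_⟩
    by_contra hcon
    push Not at hcon
    have h4 := hT n (y + P.eval (k : ℤ) • x) hn1 (by
      intro m hm0 hmM
      have h5 := hcon m (by rw [hms]; exact mem_filter.mpr ⟨mem_Icc.mpr (abs_le.mp hmM), hm0⟩)
      rw [hc, div_le_iff₀ (by positivity)] at h5
      exact h5)
    have h5 : ∑ p ∈ sq n, f (V p • (y + P.eval (k : ℤ) • x)) =
        ∑ i ∈ range n, ∑ j ∈ range n, f ((2 ^ i * 3 ^ j) • (y + P.eval (k : ℤ) • x)) := by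
      unfold sq
      rw [Finset.sum_product]
      rfl
    rw [h5] at h4
    linarith
  have h2 : (Set.ncard {k : ℕ | k < H ∧
      ε < |(∑ i ∈ range n, ∑ j ∈ range n, f ((2 ^ i * 3 ^ j) • (y + P.eval (k : ℤ) • x))) /
            (n : ℝ) ^ 2 - ∫ t in (0 : ℝ)..1, f ((t : ℝ) : T)|} : ℝ) ≤
      (((range H).filter (fun k => ∃ m ∈ ms, τ < c m k)).card : ℝ) := by
    have h3 := Set.ncard_le_ncard hsub (Finset.finite_toSet _)
    rw [Set.ncard_coe_finset] at h3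
    exact_mod_cast h3
  refine h2.trans ?_
  have h3 : (ms.card : ℝ) * (δ * H) ≤ (2 * M + 1) * (δ * H) :=
    mul_le_mul_of_nonneg_right hcard (by positivity)
  have h4 : (2 * (M : ℝ) + 1) * (δ * H) = ε * H * τ ^ 2 := by
    rw [hδ]
    field_simp
  have h5 := h1.trans (h3.trans h4.le)
  exact le_of_mul_le_mul_right h5 (by positivity)

end Pool.Agent.Lib.MP_715eb0_an.SW
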