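import Pool.Agent.Lib.MP_715eb0_an.SW.Spec
import Pool.Agent.Lib.MP_715eb0_an.SI.MOM

/-!
# MP_715eb0_an: the second moment over a square of times (module MOW)
-/

set_option autoImplicit false

open MeasureTheory Finset Polynomial

namespace Pool.Agent.Lib.MP_715eb0_an.SW

open Pool.Agent.Lib.MP_715eb0_an.SI Pool.Agent.Lib.MP_715eb0_an.NC

namespace MOWM

open Pool.Agent.Lib.MP_715eb0_an.SI.MOMM

lemma sq_card (n : ℕ) : ((sq n).card : ℝ) = (n : ℝ) ^ 2 := by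
  unfold sq
  rw [card_product, card_range]
  push_cast
  ring

/-- One row of the double sum. -/
lemma row {n : ℕ} {x : T} (P : ℤ[X]) (H : ℕ)
    (κ C ε' : ℝ) (hκ : 0 ≤ κ) (Y : Finset T)
    (hY : ∀ θ : T, κ * H ≤ ‖E P H θ‖ → ∃ y ∈ Y, dist θ y ≤ C / H)
    (hA : ∀ c : T, ((((sq n).filter (fun p => dist (V p • x) c ≤ C / H)).card : ℕ) : ℝ) ≤
      ε' * (n : ℝ) ^ 2) (c : T) :
    ∑ p ∈ sq n, ‖E P H (V p • x - c)‖ ≤ (n : ℝ) ^ 2 * (κ * H + Y.card * ε' * H) := by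
  classical
  have h1 : ∀ p ∈ sq n, ‖E P H (V p • x - c)‖ ≤
      κ * H + ∑ y ∈ Y, (if dist (V p • x) (c + y) ≤ C / H then (H : ℝ) else 0) := by
    intro p _
    have hs : 0 ≤ ∑ y ∈ Y, (if dist (V p • x) (c + y) ≤ C / H then (H : ℝ) else 0) := by
      apply sum_nonneg
      intro y _
      split_ifs
      · exact Nat.cast_nonneg _
      · exact le_rfl
    rcases lt_or_ge ‖E P H (V p • x - c)‖ (κ * H) with h | h
    · linarith
    · obtain ⟨y, hyY, hy⟩ := hY _ h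
      have hd : dist (V p • x) (c + y) ≤ C / H := by
        have : dist (V p • x - c) y = dist (V p • x) (c + y) := by
          rw [dist_eq_norm, dist_eq_norm, sub_sub]
        rw [← this]; exact hy
      have h2 : (if dist (V p • x) (c + y) ≤ C / H then (H : ℝ) else 0) ≤
          ∑ y ∈ Y, (if dist (V p • x) (c + y) ≤ C / H then (H : ℝ) else 0) := by
        apply single_le_sum (f := fun y => (if dist (V p • x) (c + y) ≤ C / H then (H : ℝ) else 0))
        · intro y _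
          split_ifs
          · exact Nat.cast_nonneg _
          · exact le_rfl
        · exact hyY
      rw [if_pos hd] at h2
      have h3 := norm_E_le P H (V p • x - c)
      have h4 : 0 ≤ κ * (H : ℝ) := mul_nonneg hκ (Nat.cast_nonneg _)
      linarith
  refine (sum_le_sum h1).trans ?_
  rw [sum_add_distrib, sum_const, nsmul_eq_mul, sum_comm, sq_card]
  have h5 : ∀ y ∈ Y, ∑ p ∈ sq n, (if dist (V p • x) (c + y) ≤ C / H then (H : ℝ) else 0) ≤
      ε' * (n : ℝ) ^ 2 * H := by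
    intro y _
    rw [← sum_filter, sum_const, nsmul_eq_mul]
    exact mul_le_mul_of_nonneg_right (hA (c + y)) (Nat.cast_nonneg _)
  have h6 := sum_le_sum h5
  rw [sum_const, nsmul_eq_mul] at h6
  calc (n : ℝ) ^ 2 * (κ * H) + ∑ y ∈ Y, ∑ p ∈ sq n,
        (if dist (V p • x) (c + y) ≤ C / H then (H : ℝ) else 0)
      ≤ (n : ℝ) ^ 2 * (κ * H) + Y.card * (ε' * (n : ℝ) ^ 2 * H) := by linarith
    _ = (n : ℝ) ^ 2 * (κ * H + Y.card * ε' * H) := by ring

end MOWM

open MOWM Pool.Agent.Lib.MP_715eb0_an.SI.MOMM in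
theorem specMOW (hCNW : SpecCNW) (hCOV : SI.SpecCOV) (hEXP : SI.SpecEXP) : SpecMOW := by
  classical
  intro P m δ η hP hm hδ hη
  obtain ⟨Y, C₁, hC₁, hY⟩ := hCOV P (δ / 2) hP (by linarith)
  obtain ⟨C, hC⟩ := hCNW m C₁ (δ / (2 * Y.card + 2)) η hm hC₁ (by positivity) hη
  refine ⟨C, ?_⟩
  intro x y hx hCx H hH n hn
  have hq0 : 0 < addOrderOf x := pos_of_coprime hx
  have hqR : (0 : ℝ) < addOrderOf x := by exact_mod_cast hq0
  have hHpos : (0 : ℝ) < H := lt_of_lt_of_le (Real.rpow_pos_of_pos hqR η) hH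
  have hH1 : 1 ≤ H := by
    have : 0 < H := by exact_mod_cast hHpos
    exact this
  have hA := hC x hx hCx H hH n hn
  have hrow : ∀ p' ∈ sq n, ∑ p ∈ sq n, ‖E P H (V p • (m • x) - V p' • (m • x))‖ ≤
      (n : ℝ) ^ 2 * (δ / 2 * H + Y.card * (δ / (2 * Y.card + 2)) * H) := by
    intro p' _
    exact row P H (δ / 2) C₁ (δ / (2 * Y.card + 2)) (by linarith) Y
      (fun θ hθ => hY θ H hH1 hθ) hA (V p' • (m • x))
  have h1 : ∀ k ∈ range H,
      ‖∑ p ∈ sq n, (fourier m (V p • (y + P.eval (k : ℤ) • x)) : ℂ)‖ ^ 2 =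
        ‖∑ p ∈ sq n, (fourier m (V p • y) : ℂ) *
          (fourier (P.eval (k : ℤ)) (V p • (m • x)) : ℂ)‖ ^ 2 := by
    intro k _
    have h2 : ∑ p ∈ sq n, (fourier m (V p • (y + P.eval (k : ℤ) • x)) : ℂ) =
        ∑ p ∈ sq n, (fourier m (V p • y) : ℂ) *
          (fourier (P.eval (k : ℤ)) (V p • (m • x)) : ℂ) :=
      sum_congr rfl (fun p _ => char_eq m _ (V p) x y)
    rw [h2]
  rw [sum_congr rfl h1]
  have h3 := hEXP (ℕ × ℕ) (sq n) (fun p => V p • (m • x)) (fun p => (fourier m (V p • y) : ℂ))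
    (fun k => P.eval (k : ℤ)) H (by
      intro p _
      show ‖(fourier m (V p • y) : ℂ)‖ ≤ 1
      rw [fourier_apply, Circle.norm_coe])
  refine h3.trans ?_
  rw [sum_comm]
  refine (sum_le_sum hrow).trans ?_
  rw [sum_const, nsmul_eq_mul, sq_card]
  have h4 : (Y.card : ℝ) * (δ / (2 * Y.card + 2)) ≤ δ / 2 := by
    rw [mul_div_assoc', div_le_div_iff₀ (by positivity) (by norm_num)]
    nlinarith [Nat.cast_nonneg (α := ℝ) Y.card]
  have h5 : δ / 2 * H + Y.card * (δ / (2 * Y.card + 2)) * H ≤ δ * H := by nlinarith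
  calc (n : ℝ) ^ 2 * ((n : ℝ) ^ 2 * (δ / 2 * H + Y.card * (δ / (2 * Y.card + 2)) * H))
      ≤ (n : ℝ) ^ 2 * ((n : ℝ) ^ 2 * (δ * H)) := by gcongr
    _ = δ * (n : ℝ) ^ 4 * H := by ring

end Pool.Agent.Lib.MP_715eb0_an.SW
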