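import Pool.Agent.Lib.MP_715eb0_an.SW.Spec
import Pool.Agent.Lib.MP_715eb0_an.SI.MOM

/-!
# MP_715eb0_an: the second moment over orbits, `y` of any order prime to `6` (module MOY, helper64)

Adapted from `SI/MOM.lean`.
-/

set_option autoImplicit false

open MeasureTheory Finset Polynomial

namespace Pool.Agent.Lib.MP_715eb0_an.SW

open Pool.Agent.Lib.MP_715eb0_an.SI Pool.Agent.Lib.MP_715eb0_an.NC

open Pool.Agent.Lib.MP_715eb0_an.SI.MOMM in
theorem specMOY (hARC : NC.SpecARC) (hCOV : SI.SpecCOV) (hEXP : SI.SpecEXP)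
    (hAVG : SI.SpecAVG) : SpecMOY := by
  classical
  intro P m δ η hP hm hδ hη
  obtain ⟨Y, C, hC, hY⟩ := hCOV P (δ / 2) hP (by linarith)
  obtain ⟨q₁, hq₁⟩ := hARC (δ / (2 * Y.card + 2)) (η / 2) (by positivity) (by linarith)
  refine ⟨max (m.natAbs * q₁) (⌈C ^ (2 / η)⌉₊ + 1), ?_⟩
  intro x y hx hq hy H hH
  set q := addOrderOf x with hqdef
  have hq0 : 0 < q := pos_of_coprime hx
  have hqR : (0 : ℝ) < q := by exact_mod_cast hq0
  have hHpos : (0 : ℝ) < H := lt_of_lt_of_le (Real.rpow_pos_of_pos hqR η) hH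
  have hH1 : 1 ≤ H := by
    have : 0 < H := by exact_mod_cast hHpos
    exact this
  have hqx : q • x = 0 := addOrderOf_nsmul_eq_zero x
  have hqx' : q • (m • x) = 0 := by rw [smul_comm, hqx, smul_zero]
  set Q := q * addOrderOf y with hQ
  have hQ6 : Q.Coprime 6 := Nat.Coprime.mul_left hx hy
  have hQ0 : 0 < Q := pos_of_coprime hQ6
  have hQx : Q • x = 0 := by rw [hQ, mul_comm, mul_smul, hqx, smul_zero]
  have hQy : Q • y = 0 := by rw [hQ, mul_smul, addOrderOf_nsmul_eq_zero, smul_zero]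
  have hQx' : Q • (m • x) = 0 := by rw [smul_comm, hQx, smul_zero]
  set x' := m • x with hx'
  set d := addOrderOf x' with hd
  have hdq : d ∣ q := addOrderOf_dvd_of_nsmul_eq_zero hqx'
  have hdle : d ≤ q := Nat.le_of_dvd hq0 hdq
  have hdcop : d.Coprime 6 := Nat.Coprime.coprime_dvd_left hdq hx
  have hd0 : 0 < d := pos_of_coprime hdcop
  have hmpos : 0 < m.natAbs := Int.natAbs_pos.mpr hm
  have hqd : q ≤ d * m.natAbs := by
    have h0 : (d * m.natAbs) • x = 0 := by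
      have h1 : d • x' = 0 := addOrderOf_nsmul_eq_zero x'
      have h2 : ((d : ℤ) * m) • x = 0 := by
        rw [mul_smul, natCast_zsmul]
        exact h1
      rcases Int.natAbs_eq m with h | h
      · have h3 : ((d * m.natAbs : ℕ) : ℤ) • x = 0 := by
          push_cast
          rw [← Int.natCast_natAbs, ← h]
          exact h2
        rw [natCast_zsmul] at h3
        exact h3
      · have h3 : ((d * m.natAbs : ℕ) : ℤ) • x = 0 := by
          have h4 : ((d * m.natAbs : ℕ) : ℤ) = -((d : ℤ) * m) := by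
            rw [Nat.cast_mul]
            have : (m.natAbs : ℤ) = -m := by rw [h]; simp
            rw [this]; ring
          rw [h4, neg_smul, h2, neg_zero]
        rw [natCast_zsmul] at h3
        exact h3
    exact Nat.le_of_dvd (Nat.mul_pos hd0 hmpos) (addOrderOf_dvd_of_nsmul_eq_zero h0)
  have hq₁d : q₁ ≤ d := by
    have h1 : m.natAbs * q₁ ≤ m.natAbs * d := by
      calc m.natAbs * q₁ ≤ q := (le_max_left _ _).trans hq
        _ ≤ d * m.natAbs := hqd
        _ = m.natAbs * d := mul_comm _ _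
    exact Nat.le_of_mul_le_mul_left h1 hmpos
  have hrad : C / H ≤ (d : ℝ) ^ (-(η / 2)) := by
    have hqC : C ^ (2 / η) ≤ q := by
      have h1 : ⌈C ^ (2 / η)⌉₊ + 1 ≤ q := (le_max_right _ _).trans hq
      have h2 : C ^ (2 / η) ≤ (⌈C ^ (2 / η)⌉₊ : ℝ) := Nat.le_ceil _
      have h3 : ((⌈C ^ (2 / η)⌉₊ + 1 : ℕ) : ℝ) ≤ q := by exact_mod_cast h1
      push_cast at h3
      linarith
    have hCq : C ≤ (q : ℝ) ^ (η / 2) := by
      have h1 : (C ^ (2 / η)) ^ (η / 2) ≤ (q : ℝ) ^ (η / 2) :=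
        Real.rpow_le_rpow (Real.rpow_nonneg hC.le _) hqC (by linarith)
      rw [← Real.rpow_mul hC.le] at h1
      have h2 : 2 / η * (η / 2) = 1 := by field_simp
      rw [h2, Real.rpow_one] at h1
      exact h1
    have h3 : C / H ≤ (q : ℝ) ^ (-(η / 2)) := by
      rw [div_le_iff₀ hHpos]
      calc C ≤ (q : ℝ) ^ (η / 2) := hCq
        _ = (q : ℝ) ^ (-(η / 2)) * (q : ℝ) ^ η := by
            rw [← Real.rpow_add hqR]
            congr 1
            ring
        _ ≤ (q : ℝ) ^ (-(η / 2)) * H :=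
            mul_le_mul_of_nonneg_left hH (Real.rpow_nonneg hqR.le _)
    refine h3.trans ?_
    have hdR : (0 : ℝ) < d := by exact_mod_cast hd0
    have hdleR : (d : ℝ) ≤ q := by exact_mod_cast hdle
    exact Real.rpow_le_rpow_of_nonpos hdR hdleR (by linarith)
  have hA : ∀ c : T, ((Set.ncard {z : T | z ∈ Orb x' ∧ dist z c ≤ C / H} : ℕ) : ℝ) ≤
      δ / (2 * Y.card + 2) * (Orb x').card := by
    intro c
    refine le_trans ?_ (hq₁ x' hdcop hq₁d c)
    have hsub : {z : T | z ∈ Orb x' ∧ dist z c ≤ C / H} ⊆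
        {z : T | z ∈ Orb x' ∧ dist z c ≤ (addOrderOf x' : ℝ) ^ (-(η / 2))} := by
      intro z hz
      exact ⟨hz.1, hz.2.trans hrad⟩
    have hfin : {z : T | z ∈ Orb x' ∧ dist z c ≤ (addOrderOf x' : ℝ) ^ (-(η / 2))}.Finite :=
      (Orb x').finite_toSet.subset (fun z hz => hz.1)
    exact_mod_cast Set.ncard_le_ncard hsub hfin
  have hrow : ∀ p' ∈ R Q, ∑ p ∈ R Q, ‖E P H (p • x' - p' • x')‖ ≤
      cnt Q * (δ / 2 * H + Y.card * (δ / (2 * Y.card + 2)) * H) := by
    intro p' _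
    exact row hAVG hQ6 hQx' P H (δ / 2) C (δ / (2 * Y.card + 2)) (by linarith) Y
      (fun θ hθ => hY θ H hH1 hθ) hA (p' • x')
  have hsq := square hEXP hAVG hQ6 hQx hQy P m H
  refine hsq.trans ?_
  have hN : (0 : ℝ) < cnt Q := by exact_mod_cast cnt_pos hQ0
  have h1 := sum_le_sum hrow
  rw [sum_const, nsmul_eq_mul] at h1
  have h2 : ((R Q).card : ℝ) = cnt Q := rfl
  rw [h2] at h1
  calc ((cnt Q : ℝ)⁻¹) ^ 2 * ∑ p' ∈ R Q, ∑ p ∈ R Q, ‖E P H (p • x' - p' • x')‖
      ≤ ((cnt Q : ℝ)⁻¹) ^ 2 * ((cnt Q : ℝ) *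
          (cnt Q * (δ / 2 * H + Y.card * (δ / (2 * Y.card + 2)) * H))) :=
        mul_le_mul_of_nonneg_left h1 (by positivity)
    _ = δ / 2 * H + Y.card * (δ / (2 * Y.card + 2)) * H := by
        field_simp
    _ ≤ δ * H := by
        have h3 : (Y.card : ℝ) * (δ / (2 * Y.card + 2)) ≤ δ / 2 := by
          rw [mul_div_assoc', div_le_div_iff₀ (by positivity) (by norm_num)]
          nlinarith [Nat.cast_nonneg (α := ℝ) Y.card]
        nlinarith

end Pool.Agent.Lib.MP_715eb0_an.SW
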