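import Pool.Agent.Lib.MP_715eb0_an.SI.Final
import Pool.Agent.Lib.MP_715eb0_an.SW.CNW
import Pool.Agent.Lib.MP_715eb0_an.SW.MOW
import Pool.Agent.Lib.MP_715eb0_an.SW.EMP
import Pool.Agent.Lib.MP_715eb0_an.SW.FIW
import Pool.Agent.Lib.MP_715eb0_an.SW.MOY
import Pool.Agent.Lib.MP_715eb0_an.SW.FIY

/-!
# MP_715eb0_an: short progressions about every point, in logarithmic time
-/

namespace Pool.Agent.Lib.MP_715eb0_an.SW

/-- The count of the times near a point (from the Subspace theorem). -/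
theorem cnt : NC.SpecCNT :=
  NC.specCNT (NC.specEXT (NC.specVAN (NC.specVAA Pool.Agent.Lib.MP_d0e829_nt.SS.sub))
    (NC.specBUD NC.specPIG NC.specRDU))

/-- Clause (1). -/
theorem main1 : SpecFIW :=
  specFIW (specMOW (specCNW cnt) (SI.specCOV SI.specWEY) SI.specEXP) (specEMP SI.specTRG)

/-- Clause (2). -/
theorem main2 : SpecFIY :=
  specFIY (specMOY SI.arc (SI.specCOV SI.specWEY) SI.specEXP SI.specAVG) SI.specTRG

end Pool.Agent.Lib.MP_715eb0_an.SW
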